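import Mathlib
import Pool.Agent.Work.MP_0d108e_h29.Fin

/-!
# Regularity of the interval sieve function `g` at almost all scales (MP_0d108e_nt)

`W y` is the minimum, over all choices of one residue class `a p` for each prime
`p ≤ (y / log y)^(1/2)`, of the number of integers in `[0, y]` that lie in none of the classes;
`g u` is the supremum of the `y ≥ 2` with `W y * log y ≤ u` (definitions in
`Pool/Agent/Work/MP_0d108e_h29/Defs.lean`).  Q1 asks whether `g(a) ~ g(b)` whenever
`a ~ b → ∞`.

1. (unconditional) `W` is superadditive up to an error `C s / (log s)^2` for comparable arguments.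
2. (unconditional) `W y log y` is regular at almost all dyadic scales at which
   `W y (log y)^2 / y` is large.  By Iwaniec's theorem (`W y ≥ c y log log y / (log y)^2`, quoted
   in the problem file with the constant 4) this holds at all scales.
3. If `W y` has the order of magnitude `y / log y`, then the answer to Q1 is yes.
4. Relative to Iwaniec's theorem: `g(a) ≤ 2 g(b)` eventually whenever `a ~ b → ∞`; a jump
   `g ((1 + δ) u) > (1 + ε) g u` needs `δ ≥ κ ε (g u / u) (log log u / log u)`; and Q1 holds at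
   almost all scales: there is a set `S` of natural numbers of density 1 such that `g(a) ~ g(b)`
   whenever `a ~ b → ∞` and `b` takes values in the dyadic intervals `[2^j, 2^(j+1))`, `j ∈ S`.

The proof: raising the sieving level from `(s / log s)^(1/2)` to a bounded multiple removes at most
`C s / (log s)^2` survivors (an upper bound sieve inside the residue classes modulo the additional
primes), which gives superadditivity; a failure of regularity at the scale `2^j` is a rise of
`W (2^i) / 2^i` by a constant factor within boundedly many steps `i ≤ j`, while this sequence falls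
by at most `C / i^2` in one step.
-/

namespace Pool.Agent.Results.MP_0d108e_nt.AlmostAllScales

open Filter Topology Pool.SieveG

/-- Iwaniec's lower bound: `W y ≥ c y log log y / (log y)^2` for some `c > 0` and all large `y` -/
def IwaniecBound : Prop := ∃ c : ℝ, 0 < c ∧
  ∀ᶠ y in atTop, c * y * Real.log (Real.log y) ≤ (W y : ℝ) * Real.log y ^ 2

open Classical in
/-- the set `B` of natural numbers has natural density `d` -/
def HasDensity (B : Set ℕ) (d : ℝ) : Prop :=
  Tendsto (fun J : ℕ => (((Finset.range J).filter (fun j : ℕ => j ∈ B)).card : ℝ) / J) atTop (𝓝 d)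

open Classical in
/-- **Superadditivity of `W` and its regularity at almost all scales; Q1 follows from the order of
magnitude of `W`; relative to Iwaniec's theorem, `g` has no jump by more than a factor 2 and Q1 holds
at almost all dyadic scales.** -/
theorem result :
    (∀ Λ : ℝ, 1 ≤ Λ → ∃ C Y : ℝ, 0 < C ∧ 2 ≤ Y ∧ ∀ s t : ℝ, Y ≤ s → Y ≤ t →
      s ≤ Λ * t → t ≤ Λ * s → (W s : ℝ) + W t - C * s / Real.log s ^ 2 ≤ W (s + t)) ∧
    (∀ ε : ℝ, 0 < ε → ε < 1 → ∃ δ : ℝ, 0 < δ ∧ ∀ κ : ℝ, 0 < κ →
      ∃ K : ℝ, 0 < K ∧ ∀ᶠ J : ℕ in atTop,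
        (((Finset.range J).filter (fun j : ℕ => ∃ y z : ℝ, (2 : ℝ) ^ j ≤ y ∧ y < 2 ^ (j + 1) ∧
          (1 + ε) * y ≤ z ∧ z ≤ 2 * y ∧ K * y ≤ (W y : ℝ) * Real.log y ^ 2 ∧
          (W z : ℝ) * Real.log z ≤ (1 + δ) * ((W y : ℝ) * Real.log y))).card : ℝ) ≤ κ * J) ∧
    ((∃ c : ℝ, 0 < c ∧ ∀ᶠ y in atTop, c * y ≤ (W y : ℝ) * Real.log y) → Q1) ∧
    (IwaniecBound →
      (∀ a b : ℝ → ℝ, Tendsto a atTop atTop → Tendsto b atTop atTop →
        Tendsto (fun x => a x / b x) atTop (𝓝 1) → ∀ᶠ x in atTop, g (a x) ≤ 2 * g (b x)) ∧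
      (∃ κ : ℝ, 0 < κ ∧ ∀ ε : ℝ, 0 < ε → ε < 1 → ∀ᶠ u in atTop,
        ∀ δ : ℝ, 0 < δ → δ ≤ 1 / 4 → (1 + ε) * g u < g ((1 + δ) * u) →
          κ * ε * g u * Real.log (Real.log u) ≤ δ * u * Real.log u) ∧
      (∃ S : Set ℕ, HasDensity S 1 ∧ ∀ a b : ℝ → ℝ, Tendsto a atTop atTop →
        Tendsto b atTop atTop → Tendsto (fun x => a x / b x) atTop (𝓝 1) →
        (∀ᶠ x in atTop, ∃ j ∈ S, (2 : ℝ) ^ j ≤ b x ∧ b x < 2 ^ (j + 1)) →
        Tendsto (fun x => g (a x) / g (b x)) atTop (𝓝 1))) :=
  ⟨hSUP, hUU, hFA, fun h0 =>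
    have h : Iw := p_IW h0
    ⟨fun a b => hFB h a b, hEQ h0, hFD h⟩⟩

end Pool.Agent.Results.MP_0d108e_nt.AlmostAllScales
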